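import Mathlib

/-!
# The numbers whose binary digits form a first passage path (helper31)

The number `val l` has the binary digits `l` (from the lowest digit on, `D` for the digit one, `U` for the
digit zero) followed by a last digit one.
-/

set_option autoImplicit false

namespace Pool.Agent.V7H31.DA

open DyckStep

/-- the binary digit -/
def bit : DyckStep → ℕ
  | U => 0
  | D => 1

/-- the number with the given binary digits and one more digit one at the top -/
def val : List DyckStep → ℕ
  | [] => 1
  | x :: l => 2 * val l + bit x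

lemma bit_le (x : DyckStep) : bit x ≤ 1 := by cases x <;> simp [bit]

lemma val_pos : ∀ l, 1 ≤ val l
  | [] => le_rfl
  | x :: l => by
      have := val_pos l
      show 1 ≤ 2 * val l + bit x
      omega

lemma val_lt : ∀ l, val l < 2 ^ (l.length + 1)
  | [] => by simp [val]
  | x :: l => by
      have := val_lt l
      have h := bit_le x
      show 2 * val l + bit x < 2 ^ (l.length + 1 + 1)
      rw [pow_succ]
      omega

lemma val_inj : ∀ l l' : List DyckStep, l.length = l'.length → val l = val l' → l = l'
  | [], [], _, _ => rfl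
  | [], _ :: _, h, _ => by simp at h
  | _ :: _, [], h, _ => by simp at h
  | x :: l, y :: l', h, hv => by
      have h1 : 2 * val l + bit x = 2 * val l' + bit y := hv
      have hx := bit_le x
      have hy := bit_le y
      have h2 : bit x = bit y := by omega
      have h3 : val l = val l' := by omega
      have h4 : x = y := by
        revert h2
        cases x <;> cases y <;> simp [bit]
      rw [h4, val_inj l l' (by simpa using h) h3]

/-- the digits of the first number are not larger than the digits of the second one -/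
def rel : List DyckStep → List DyckStep → Prop
  | [], [] => True
  | [], y :: _ => y = D
  | _ :: _, [] => False
  | x :: l, y :: l' => (x = D → y = D) ∧ rel l l'

lemma odd_choose {m n m' n' : ℕ} (hx : m' ≤ 1) (hy : n' ≤ 1)
    (h : ¬ 2 ∣ (2 * n + n').choose (2 * m + m')) : (m' = 1 → n' = 1) ∧ ¬ 2 ∣ n.choose m := by
  have : Fact (Nat.Prime 2) := ⟨Nat.prime_two⟩
  have h1 := @Choose.choose_modEq_choose_mod_mul_choose_div_nat (2 * n + n') (2 * m + m') 2 _
  rw [show (2 * n + n') % 2 = n' by omega, show (2 * m + m') % 2 = m' by omega,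
    show (2 * n + n') / 2 = n by omega, show (2 * m + m') / 2 = m by omega] at h1
  have h2 : ¬ 2 ∣ n'.choose m' * n.choose m := fun h3 => h ((h1.dvd_iff (dvd_refl 2)).mpr h3)
  refine ⟨fun hm => ?_, fun h3 => h2 (Dvd.dvd.mul_left h3 _)⟩
  by_contra hn
  have h4 : n' = 0 := by omega
  apply h2
  rw [hm, h4]
  simp

lemma rel_of_odd : ∀ la lb : List DyckStep, ¬ 2 ∣ (val lb).choose (val la) → rel la lb
  | [], [], _ => trivial
  | [], y :: l, h => by
      have h1 := @odd_choose 0 (val l) 1 (bit y) le_rfl (bit_le y) h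
      have h2 := h1.1 rfl
      revert h2
      cases y
      · simp [bit]
      · intro _
        rfl
  | x :: l, [], h => by
      exfalso
      apply h
      have h1 := val_pos l
      have h2 : val [] < val (x :: l) := by
        show 1 < 2 * val l + bit x
        omega
      rw [Nat.choose_eq_zero_of_lt h2]
      exact dvd_zero 2
  | x :: l, y :: l', h => by
      have h1 := @odd_choose (val l) (val l') (bit x) (bit y) (bit_le x) (bit_le y) h
      refine ⟨?_, rel_of_odd l l' h1.2⟩
      intro hx
      have h2 := h1.1 (by rw [hx]; rfl)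
      revert h2
      cases y
      · simp [bit]
      · intro _
        rfl

lemma rel_count : ∀ la lb : List DyckStep, rel la lb →
    (la.length = lb.length ∧ la.count D ≤ lb.count D ∧ (la.count D = lb.count D → la = lb)) ∨
      (la.length < lb.length ∧ la.count D + 1 ≤ (lb.take (la.length + 1)).count D)
  | [], [], _ => Or.inl ⟨rfl, le_rfl, fun _ => rfl⟩
  | [], y :: l, h => by
      have h1 : y = D := h
      subst h1
      right
      refine ⟨by simp, ?_⟩
      simp
  | x :: l, [], h => h.elim
  | x :: l, y :: l', h => by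
      obtain ⟨h1, h2⟩ := h
      have h3 := rel_count l l' h2
      have h4 : List.count D [x] ≤ List.count D [y] := by
        revert h1
        cases x <;> cases y <;> simp
      have e1 : ∀ (z : DyckStep) (k : List DyckStep), (z :: k).count D = k.count D + [z].count D := by
        intro z k
        rw [show z :: k = [z] ++ k from rfl, List.count_append, add_comm]
      rcases h3 with ⟨h5, h6, h7⟩ | ⟨h5, h6⟩
      · left
        refine ⟨by simp [h5], ?_, ?_⟩
        · rw [e1 x l, e1 y l']
          omega
        · intro h8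
          rw [e1 x l, e1 y l'] at h8
          rw [h7 (by omega)]
          have h9 : [x].count D = [y].count D := by omega
          have h10 : x = y := by
            revert h9
            cases x <;> cases y <;> simp
          rw [h10]
      · right
        refine ⟨by simpa using h5, ?_⟩
        rw [List.length_cons, List.take_succ_cons, e1 x l, e1 y (l'.take (l.length + 1))]
        omega

/-- the numbers given by the Dyck words -/
def firstPassage : Set ℕ := {b | ∃ p : DyckWord, b = val p.toList}

lemma two_count_take (p : DyckWord) (t : ℕ) (ht : t ≤ p.toList.length) :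
    2 * (p.toList.take t).count D ≤ t := by
  have h1 := p.count_D_le_count_U t
  have h2 : (p.toList.take t).count U + (p.toList.take t).count D = t := by
    have h3 : ∀ l : List DyckStep, l.count U + l.count D = l.length := by
      intro l
      induction l with
      | nil => rfl
      | cons x l ih =>
        cases x
        · rw [List.count_cons_self, List.count_cons_of_ne (by decide), List.length_cons]
          omega
        · rw [List.count_cons_self, List.count_cons_of_ne (by decide), List.length_cons]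
          omega
    rw [h3, List.length_take]
    omega
  omega

/-- the numbers form an antichain -/
theorem firstPassage_div {a b : ℕ} (ha : a ∈ firstPassage) (hb : b ∈ firstPassage) (hab : a < b) :
    2 ∣ (2 * b).choose (2 * a) := by
  obtain ⟨p, rfl⟩ := ha
  obtain ⟨q, rfl⟩ := hb
  by_contra h
  have h1 := @odd_choose (val p.toList) (val q.toList) 0 0 (by norm_num) (by norm_num) (by simpa using h)
  have h2 := rel_count _ _ (rel_of_odd _ _ h1.2)
  have hp : 2 * p.toList.count D = p.toList.length := by
    rw [← p.semilength_eq_count_D]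
    exact p.two_mul_semilength_eq_length
  have hq : 2 * q.toList.count D = q.toList.length := by
    rw [← q.semilength_eq_count_D]
    exact q.two_mul_semilength_eq_length
  rcases h2 with ⟨h3, h4, h5⟩ | ⟨h3, h4⟩
  · have h6 := h5 (by omega)
    rw [h6] at hab
    exact absurd hab (lt_irrefl _)
  · have h6 := two_count_take q (p.toList.length + 1) h3
    omega

lemma firstPassage_pos {a : ℕ} (ha : a ∈ firstPassage) : 1 ≤ a := by
  obtain ⟨p, rfl⟩ := ha
  exact val_pos _

/-- the number of the elements -/
theorem catalan_le (k N : ℕ) (h : 2 * 4 ^ k ≤ N) : catalan k ≤ {b ∈ firstPassage | b ≤ N}.ncard := by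
  classical
  rw [← DyckWord.card_dyckWord_semilength_eq_catalan, ← Nat.card_eq_fintype_card, ← Set.ncard_univ]
  refine Set.ncard_le_ncard_of_injOn (fun p => val p.1.toList) ?_ ?_ ?_
  · intro p _
    refine ⟨⟨p.1, rfl⟩, ?_⟩
    have h1 := val_lt p.1.toList
    have h2 := p.1.two_mul_semilength_eq_length
    rw [p.2] at h2
    rw [← h2, pow_succ, pow_mul] at h1
    norm_num at h1
    show val p.1.toList ≤ N
    omega
  · intro p _ q _ hpq
    have h1 := p.1.two_mul_semilength_eq_length
    have h2 := q.1.two_mul_semilength_eq_length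
    rw [p.2] at h1
    rw [q.2] at h2
    exact Subtype.ext (DyckWord.ext (val_inj _ _ (by omega) hpq))
  · exact (Set.finite_le_nat N).subset fun b hb => hb.2

lemma sixteen_pow_le : ∀ k : ℕ, 1 ≤ k → 16 ^ k ≤ 4 * k * k.centralBinom ^ 2 := by
  intro k hk
  induction k, hk using Nat.le_induction with
  | base => simp [Nat.centralBinom, Nat.choose]
  | succ k hk ih =>
    have h1 := Nat.succ_mul_centralBinom_succ k
    have h2 : (k + 1) ^ 2 * (k + 1).centralBinom ^ 2 = (2 * (2 * k + 1)) ^ 2 * k.centralBinom ^ 2 := by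
      rw [← mul_pow, ← mul_pow, h1]
    have h3 : k * (k + 1) * 16 ^ (k + 1) ≤ k * (k + 1) * (4 * (k + 1) * (k + 1).centralBinom ^ 2) := by
      calc k * (k + 1) * 16 ^ (k + 1) = 16 * k * (k + 1) * 16 ^ k := by ring
        _ ≤ 16 * k * (k + 1) * (4 * k * k.centralBinom ^ 2) := Nat.mul_le_mul_left _ ih
        _ = 16 * k * (4 * k ^ 2 + 4 * k) * k.centralBinom ^ 2 := by ring
        _ ≤ 16 * k * (2 * k + 1) ^ 2 * k.centralBinom ^ 2 := by
            gcongr
            nlinarith
        _ = 4 * k * ((2 * (2 * k + 1)) ^ 2 * k.centralBinom ^ 2) := by ring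
        _ = 4 * k * ((k + 1) ^ 2 * (k + 1).centralBinom ^ 2) := by rw [h2]
        _ = k * (k + 1) * (4 * (k + 1) * (k + 1).centralBinom ^ 2) := by ring
    exact Nat.le_of_mul_le_mul_left h3 (by positivity)

lemma sixteen_pow_le' (k : ℕ) (hk : 1 ≤ k) : 16 ^ k ≤ 16 * k ^ 3 * catalan k ^ 2 := by
  have h1 := sixteen_pow_le k hk
  rw [← succ_mul_catalan_eq_centralBinom] at h1
  calc 16 ^ k ≤ 4 * k * ((k + 1) * catalan k) ^ 2 := h1
    _ = 4 * k * (k + 1) ^ 2 * catalan k ^ 2 := by ring
    _ ≤ 4 * k * (2 * k) ^ 2 * catalan k ^ 2 := by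
        gcongr
        omega
    _ = _ := by ring

/-- the counting function -/
theorem firstPassage_count (N : ℕ) (hN : 2 ≤ N) :
    (1 / 32 : ℝ) * N / Real.log N ^ (3 / 2 : ℝ) ≤ {b ∈ firstPassage | b ≤ N}.ncard := by
  set k := Nat.log 4 (N / 2) with hk
  have h1 : 4 ^ k ≤ N / 2 := Nat.pow_log_le_self 4 (by omega)
  have h2 : N / 2 < 4 ^ (k + 1) := Nat.lt_pow_succ_log_self (by norm_num) _
  have h3 := catalan_le k N (by omega)
  have hN0 : (2 : ℝ) ≤ N := by exact_mod_cast hN
  have hlog : 0 < Real.log N := Real.log_pos (by linarith)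
  have hcat : ((catalan k : ℕ) : ℝ) ≤ ({b ∈ firstPassage | b ≤ N}.ncard : ℝ) := by exact_mod_cast h3
  refine le_trans ?_ hcat
  have hL : 0 < Real.log N ^ (3 / 2 : ℝ) := Real.rpow_pos_of_pos hlog _
  rw [div_le_iff₀ hL]
  have h4 : (N : ℝ) ≤ 8 * 4 ^ k := by
    have h5 : N < 2 * 4 ^ (k + 1) := by omega
    have h6 : (N : ℝ) < 2 * 4 ^ (k + 1) := by exact_mod_cast h5
    rw [pow_succ] at h6
    linarith
  rcases Nat.eq_zero_or_pos k with h0 | h0
  · rw [h0] at h4 ⊢
    rw [catalan_zero]
    have h5 : (1 / 2 : ℝ) ≤ Real.log N := by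
      have := Real.log_two_gt_d9
      have h6 := Real.log_le_log (by norm_num) hN0
      linarith
    have h6 : (1 / 4 : ℝ) ≤ Real.log N ^ (3 / 2 : ℝ) := by
      calc (1 / 4 : ℝ) = (1 / 2 : ℝ) ^ (2 : ℝ) := by norm_num
        _ ≤ (1 / 2 : ℝ) ^ (3 / 2 : ℝ) :=
            Real.rpow_le_rpow_of_exponent_ge (by norm_num) (by norm_num) (by norm_num)
        _ ≤ _ := Real.rpow_le_rpow (by norm_num) h5 (by norm_num)
    have h7 : (N : ℝ) ≤ 8 := by
      rw [pow_zero, mul_one] at h4
      exact h4
    rw [Nat.cast_one]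
    linarith
  · have h5 : (k : ℝ) ≤ Real.log N := by
      have h6 : (4 : ℝ) ^ k ≤ N := by
        have h7 : 4 ^ k ≤ N := by omega
        exact_mod_cast h7
      have h8 := Real.log_le_log (by positivity) h6
      rw [Real.log_pow] at h8
      have h9 : (1 : ℝ) ≤ Real.log 4 := by
        rw [show (4 : ℝ) = 2 ^ 2 by norm_num, Real.log_pow]
        have := Real.log_two_gt_d9
        push_cast
        linarith
      have hk0 : (0 : ℝ) ≤ k := Nat.cast_nonneg k
      nlinarith
    have h6 : (4 : ℝ) ^ k ≤ 4 * (k : ℝ) ^ (3 / 2 : ℝ) * catalan k := by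
      have h7 := sixteen_pow_le' k h0
      have h8 : (16 : ℝ) ^ k ≤ 16 * (k : ℝ) ^ 3 * (catalan k : ℝ) ^ 2 := by exact_mod_cast h7
      have hk0 : (0 : ℝ) ≤ k := Nat.cast_nonneg k
      have h9 : ((k : ℝ) ^ (3 / 2 : ℝ)) ^ 2 = (k : ℝ) ^ 3 := by
        rw [← Real.rpow_natCast, ← Real.rpow_mul hk0]
        norm_num
      have h10 : ((4 : ℝ) ^ k) ^ 2 ≤ (4 * (k : ℝ) ^ (3 / 2 : ℝ) * catalan k) ^ 2 := by
        calc ((4 : ℝ) ^ k) ^ 2 = 16 ^ k := by rw [← pow_mul, mul_comm, pow_mul]; norm_num
          _ ≤ _ := h8
          _ = _ := by rw [← h9]; ring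
      have h11 : (0 : ℝ) ≤ 4 * (k : ℝ) ^ (3 / 2 : ℝ) * catalan k := by positivity
      exact le_of_sq_le_sq h10 h11
    have h7 : (k : ℝ) ^ (3 / 2 : ℝ) ≤ Real.log N ^ (3 / 2 : ℝ) :=
      Real.rpow_le_rpow (Nat.cast_nonneg k) h5 (by norm_num)
    have h8 : (0 : ℝ) ≤ catalan k := Nat.cast_nonneg _
    calc 1 / 32 * (N : ℝ) ≤ 1 / 32 * (8 * 4 ^ k) := by gcongr
      _ ≤ 1 / 32 * (8 * (4 * (k : ℝ) ^ (3 / 2 : ℝ) * catalan k)) := by gcongr
      _ = (k : ℝ) ^ (3 / 2 : ℝ) * catalan k := by ring
      _ ≤ Real.log N ^ (3 / 2 : ℝ) * catalan k := by gcongr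
      _ = _ := by ring

end Pool.Agent.V7H31.DA
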