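import Pool.Agent.V7H31.DA.Gen

/-!
# Antichains for the divisibility of `binom(2b', 2b)` by `p` (helper31)
-/

set_option autoImplicit false

namespace Pool.Agent.V7H31.DA

open Finset Pool.Agent.H777R4.DM
open Pool.Agent.N568.BK (AR cR cR_rat cR_map)

attribute [local instance 100] LieRing.ofAssociativeRing

section

variable {R : Type} [CommRing R] (S : Set ℕ)
  (hS : ∀ a ∈ S, ∀ b ∈ S, ((2 * b).choose (2 * a) : R) = if a = b then 1 else 0)

include hS

lemma AR_anti (b : ℕ) (hb : b ∈ S) : ∀ (e : List ℕ) (a : ℕ) (g : List ℕ → R), a ∈ S → (∀ x ∈ e, x ∈ S) →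
    AR b g ((a :: e).map (2 * ·)) = if a = b then g (e.map (2 * ·)) else 0
  | [], a, g, _, _ => by
      show (if 2 * a = 2 * b then g [] else 0) = if a = b then g [] else 0
      by_cases h : a = b
      · rw [if_pos h, if_pos (by rw [h])]
      · rw [if_neg h, if_neg (by omega)]
  | c :: e, a, g, ha, he => by
      have hc : c ∈ S := he c (by simp)
      have h1 := AR_anti b hb e c (fun e' => g (2 * a :: e')) hc (fun x hx => he x (by simp [hx]))
      have h2 : AR b g ((a :: c :: e).map (2 * ·)) =
          AR b (fun e' => g (2 * a :: e')) ((c :: e).map (2 * ·)) +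
            if 2 * b ≤ 2 * a + 2 * c then
              ((-1) ^ (2 * a) * ((2 * b).choose (2 * a) : R) -
                (-1) ^ (2 * c) * ((2 * b).choose (2 * c) : R)) *
                g ((2 * a + 2 * c - 2 * b) :: e.map (2 * ·))
            else 0 := rfl
      rw [h2, h1, hS a ha b hb, hS c hc b hb, (even_two_mul a).neg_one_pow, (even_two_mul c).neg_one_pow,
        one_mul, one_mul]
      by_cases hab : a = b
      · subst hab
        by_cases hca : c = a
        · subst hca
          simp
        · have e1 : 2 * a + 2 * c - 2 * a = 2 * c := by omega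
          have e2 : (if c = a then (1 : R) else 0) = 0 := if_neg hca
          have e3 : (if c = a then g (2 * a :: e.map (2 * ·)) else 0) = 0 := if_neg hca
          rw [e2, e3, if_pos (rfl : a = a), if_pos (by omega), e1, if_pos (rfl : a = a)]
          simp
      · by_cases hcb : c = b
        · subst hcb
          have e1 : 2 * a + 2 * c - 2 * c = 2 * a := by omega
          have e2 : (if a = c then (1 : R) else 0) = 0 := if_neg hab
          have e3 : (if a = c then g ((c :: e).map (2 * ·)) else 0) = 0 := if_neg hab
          rw [e2, e3, if_pos (rfl : c = c), if_pos (by omega), e1, if_pos (rfl : c = c)]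
          ring
        · have e2 : (if a = b then (1 : R) else 0) = 0 := if_neg hab
          have e3 : (if a = b then g ((c :: e).map (2 * ·)) else 0) = 0 := if_neg hab
          have e4 : (if c = b then (1 : R) else 0) = 0 := if_neg hcb
          have e5 : (if c = b then g (2 * a :: e.map (2 * ·)) else 0) = 0 := if_neg hcb
          rw [e2, e3, e4, e5]
          simp

lemma cR_anti : ∀ (w' w : List ℕ), w'.length = w.length → (∀ x ∈ w', x ∈ S) → (∀ x ∈ w, x ∈ S) →
    cR R w' (w.map (2 * ·)) = if w' = w then 1 else 0
  | [], w, h, _, _ => by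
      have : w = [] := by
        symm at h
        simpa using h
      subst this
      show (if ([] : List ℕ) = [] then (1 : R) else 0) = _
      rfl
  | b :: w', w, h, h1, h2 => by
      rcases w with _ | ⟨a, w⟩
      · simp at h
      show AR b (cR R w') ((a :: w).map (2 * ·)) = _
      rw [AR_anti S hS b (h1 b (by simp)) w a (cR R w') (h2 a (by simp)) (fun x hx => h2 x (by simp [hx])),
        cR_anti w' w (by simpa using h) (fun x hx => h1 x (by simp [hx])) (fun x hx => h2 x (by simp [hx]))]
      by_cases hab : a = b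
      · subst hab
        by_cases hw : w' = w
        · rw [if_pos rfl, if_pos hw, if_pos (by rw [hw])]
        · rw [if_pos rfl, if_neg hw, if_neg (by simpa using hw)]
      · rw [if_neg hab, if_neg]
        intro h
        rw [List.cons.injEq] at h
        exact hab h.1.symm

end

/-- the antichain condition implies injectivity -/
theorem anti_injective (p : ℕ) (hp : p.Prime) (n : ℕ) (b : Fin n → ℕ) (hb : ∀ i, 1 ≤ b i)
    (hbinj : Function.Injective b) (hdiv : ∀ i j, b i < b j → p ∣ (2 * b j).choose (2 * b i))
    (ψ : Fin n → A) (hL : ∀ i, ψ i ∈ LieX)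
    (hhom : ∀ i u, co (ψ i) u ≠ 0 → u.length = 2 * b i + 1)
    (hne : ∀ i, co (ψ i) (wordX [2 * b i]) ≠ 0) : Function.Injective (PhiN ψ) := by
  have : Fact p.Prime := ⟨hp⟩
  rw [← LinearMap.ker_eq_bot, LinearMap.ker_eq_bot']
  intro P hP
  have hS : ∀ a ∈ Set.range b, ∀ c ∈ Set.range b,
      ((2 * c).choose (2 * a) : ZMod p) = if a = c then 1 else 0 := by
    rintro _ ⟨i, rfl⟩ _ ⟨j, rfl⟩
    rcases lt_trichotomy (b i) (b j) with h | h | h
    · rw [if_neg (by omega)]
      exact_mod_cast (ZMod.natCast_eq_zero_iff _ _).mpr (hdiv i j h)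
    · rw [h, if_pos rfl, Nat.choose_self, Nat.cast_one]
    · rw [if_neg (by omega), Nat.choose_eq_zero_of_lt (by omega), Nat.cast_zero]
  refine main_gen p (fun w => w.map (2 * ·)) (fun _ => (0 : ℕ)) n b hb hbinj (fun _ => True) ?_ ?_ ψ hL
    hhom hne P (fun _ _ => trivial) hP
  · intro w _ hw
    refine ⟨by simp, ?_⟩
    rw [cR_anti (Set.range b) hS w w rfl (fun x hx => hw x hx) (fun x hx => hw x hx), if_pos rfl]
    exact one_ne_zero
  · intro w w' _ hlen hw hw' hne' hc
    exfalso
    apply hc
    rw [cR_anti (Set.range b) hS w' w hlen (fun x hx => hw' x hx) (fun x hx => hw x hx), if_neg hne']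

end Pool.Agent.V7H31.DA
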