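import Pool.Agent.N568.BK.DS3

/-!
# Relations between elements of the free Lie algebra, seen modulo a prime number (helper31)
-/

set_option autoImplicit false

namespace Pool.Agent.V7H31.DA

open Finset Pool.Agent.H777R4.DM
open Pool.Agent.N568.BK (AR cR cR_rat cR_map)
open Pool.Agent.N568.DSF (evN_eq evN_Dp)
open Pool.Agent.H861R3.DM.LeadN (evN PhiN_wd)

attribute [local instance 100] LieRing.ofAssociativeRing

/-- If the matrix of the coefficients of the words at the monomials `E w` is triangular modulo `p`, then the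
words are linearly independent. -/
theorem indep_gen (p : ℕ) [Fact p.Prime] {α : Type} [LinearOrder α] (E : List ℕ → List ℕ)
    (h : List ℕ → α) (F : Finset (List ℕ)) (h1 : ∀ w ∈ F, cR (ZMod p) w (E w) ≠ 0)
    (h2 : ∀ w ∈ F, ∀ w' ∈ F, w' ≠ w → cR (ZMod p) w' (E w) ≠ 0 → h w < h w')
    (lam : List ℕ → ℚ) (h3 : ∀ w ∈ F, ∑ w' ∈ F, lam w' * cR ℚ w' (E w) = 0) :
    ∀ w ∈ F, lam w = 0 := by
  classical
  set M : Matrix F F ℤ := fun w' w => cR ℤ w'.1 (E w.1) with hM
  have hdet : M.det ≠ 0 := by
    intro h0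
    have h4 : (Int.castRingHom (ZMod p)) M.det = 0 := by rw [h0, map_zero]
    rw [RingHom.map_det] at h4
    obtain ⟨v, hv0, hv⟩ := Matrix.exists_vecMul_eq_zero_iff.mpr h4
    have h5 : (univ.filter fun w : F => v w ≠ 0).Nonempty := by
      by_contra hc
      rw [not_nonempty_iff_eq_empty] at hc
      apply hv0
      funext w
      by_contra hw
      have : w ∈ univ.filter fun w : F => v w ≠ 0 := by
        rw [mem_filter]
        exact ⟨mem_univ _, hw⟩
      rw [hc] at this
      exact absurd this (notMem_empty _)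
    obtain ⟨w, hw, hmax⟩ := exists_max_image _ (fun w : F => h w.1) h5
    rw [mem_filter] at hw
    have h6 := congrFun hv w
    rw [Matrix.vecMul, dotProduct, Pi.zero_apply] at h6
    rw [sum_eq_single w] at h6
    · rcases mul_eq_zero.mp h6 with h7 | h7
      · exact hw.2 h7
      · rw [RingHom.mapMatrix_apply, Matrix.map_apply, hM] at h7
        simp only at h7
        rw [cR_map (Int.castRingHom (ZMod p))] at h7
        exact h1 _ w.2 h7
    · intro w' _ hne
      by_cases h7 : v w' = 0
      · rw [h7, zero_mul]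
      · have h8 := hmax w' (by rw [mem_filter]; exact ⟨mem_univ _, h7⟩)
        have h9 : cR (ZMod p) w'.1 (E w.1) = 0 := by
          by_contra h10
          have := h2 w.1 w.2 w'.1 w'.2 (fun h => hne (Subtype.ext h)) h10
          exact absurd (lt_of_lt_of_le this h8) (lt_irrefl _)
        rw [RingHom.mapMatrix_apply, Matrix.map_apply, hM]
        simp only
        rw [cR_map (Int.castRingHom (ZMod p)), h9, mul_zero]
    · intro h
      exact absurd (mem_univ _) h
  have hdet' : ((Int.castRingHom ℚ).mapMatrix M).det ≠ 0 := by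
    rw [← RingHom.map_det]
    simpa using hdet
  have h4 := Matrix.eq_zero_of_vecMul_eq_zero hdet' (v := fun w => lam w.1) (by
    funext w
    have h5 := h3 w.1 w.2
    rw [← Finset.sum_attach] at h5
    rw [Matrix.vecMul, Pi.zero_apply]
    refine Eq.trans ?_ h5
    unfold dotProduct
    rw [← Finset.attach_eq_univ]
    refine Finset.sum_congr rfl fun w' _ => ?_
    congr 1
    show (Int.castRingHom ℚ) (cR ℤ w'.1 (E w.1)) = _
    rw [cR_map (Int.castRingHom ℚ)])
  intro w hw
  exact congrFun h4 ⟨w, hw⟩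

/-- **Main lemma.** `D` is a set of degrees. -/
theorem main_gen (p : ℕ) [Fact p.Prime] {α : Type} [LinearOrder α] (E : List ℕ → List ℕ)
    (h : List ℕ → α) (n : ℕ) (b : Fin n → ℕ) (hb : ∀ i, 1 ≤ b i) (hbinj : Function.Injective b)
    (D : ℕ → Prop)
    (hE : ∀ w : List ℕ, D w.length → (∀ x ∈ w, ∃ i, b i = x) →
      (E w).length = w.length ∧ cR (ZMod p) w (E w) ≠ 0)
    (hE2 : ∀ w w' : List ℕ, D w.length → w'.length = w.length → (∀ x ∈ w, ∃ i, b i = x) →
      (∀ x ∈ w', ∃ i, b i = x) → w' ≠ w → cR (ZMod p) w' (E w) ≠ 0 → h w < h w')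
    (ψ : Fin n → A) (hL : ∀ i, ψ i ∈ LieX)
    (hhom : ∀ i u, co (ψ i) u ≠ 0 → u.length = 2 * b i + 1)
    (hne : ∀ i, co (ψ i) (wordX [2 * b i]) ≠ 0) (P : Al (Fin n))
    (hPD : ∀ W, co P W ≠ 0 → D W.length) (hP : PhiN ψ P = 0) : P = 0 := by
  classical
  suffices hsuff : ∀ r : ℕ, ∀ W : List (Fin n), W.length = r → co P W = 0 by
    exact al_ext fun W => by rw [hsuff W.length W rfl, co_zero]
  intro r
  induction r using Nat.strong_induction_on with
  | _ r ih =>
  intro W0 hW0
  set κ : List (Fin n) → ℚ := fun W => (W.map fun i => co (ψ i) (wordX [2 * b i])).prod with hκ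
  have hκ0 : ∀ W, κ W ≠ 0 := by
    intro W
    rw [hκ]
    simp only
    apply List.prod_ne_zero
    intro h
    rw [List.mem_map] at h
    obtain ⟨i, _, hi⟩ := h
    exact hne i hi
  by_contra hW0ne
  have hDr : D r := by
    have := hPD W0 hW0ne
    rwa [hW0] at this
  set S : Finset (List (Fin n)) := (P.coeff.support.image FreeMonoid.toList).filter fun W => W.length = r
    with hS
  have hsum : ∀ e : List ℕ, e.length = r → ∑ W ∈ S, co P W * κ W * cR ℚ (W.map b) e = 0 := by
    intro e he
    have h1 : co (PhiN ψ P) (wordX e) = 0 := by rw [hP, co_zero]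
    rw [Lead2.expand P, map_sum, Lead2.co_sum] at h1
    rw [← h1, hS, sum_filter, sum_image (fun x _ y _ h => FreeMonoid.toList.injective h)]
    refine sum_congr rfl fun m hm => ?_
    rw [map_smul, co_smul, PhiN_wd]
    by_cases h2 : (FreeMonoid.toList m).length = r
    · rw [if_pos h2, evN_eq ψ b hb hL hhom (FreeMonoid.toList m) e (by rw [he, h2])]
      ring
    · rw [if_neg h2]
      rcases Nat.lt_or_gt_of_ne h2 with h3 | h3
      · rw [ih _ h3 _ rfl, zero_mul]
      · have h4 : co (evN ψ (FreeMonoid.toList m)) (wordX e) = 0 := by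
          by_contra h5
          have := evN_Dp ψ b hb hL hhom _ _ h5
          rw [wordX_count, he] at this
          omega
        rw [h4, mul_zero]
  have hmem : W0 ∈ S := by
    rw [hS, mem_filter]
    refine ⟨?_, hW0⟩
    rw [mem_image]
    refine ⟨FreeMonoid.ofList W0, ?_, rfl⟩
    rw [Finsupp.mem_support_iff]
    exact hW0ne
  have hSlen : ∀ W ∈ S, W.length = r := by
    intro W hW
    rw [hS, mem_filter] at hW
    exact hW.2
  have hlet : ∀ W : List (Fin n), ∀ x ∈ W.map b, ∃ i, b i = x := by
    intro W x hx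
    rw [List.mem_map] at hx
    obtain ⟨i, _, rfl⟩ := hx
    exact ⟨i, rfl⟩
  set lam : List ℕ → ℚ := fun w => ∑ W ∈ S, if W.map b = w then co P W * κ W else 0 with hlam
  have hmapinj := List.map_injective_iff.mpr hbinj
  have hlamW : ∀ W ∈ S, lam (W.map b) = co P W * κ W := by
    intro W hW
    rw [hlam]
    simp only
    rw [sum_eq_single W]
    · rw [if_pos rfl]
    · intro W' _ hne'
      rw [if_neg]
      exact fun h => hne' (hmapinj h)
    · exact fun h => absurd hW h
  have h1 := indep_gen p E h (S.image (List.map b)) (by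
    intro w hw
    rw [mem_image] at hw
    obtain ⟨W, hW, rfl⟩ := hw
    exact (hE _ (by rw [List.length_map, hSlen W hW]; exact hDr) (hlet W)).2) (by
    intro w hw w' hw' hww hc
    rw [mem_image] at hw hw'
    obtain ⟨W, hW, rfl⟩ := hw
    obtain ⟨W', hW', rfl⟩ := hw'
    exact hE2 _ _ (by rw [List.length_map, hSlen W hW]; exact hDr)
      (by rw [List.length_map, List.length_map, hSlen W hW, hSlen W' hW']) (hlet W) (hlet W') hww hc)
    lam (by
    intro w hw
    rw [mem_image] at hw
    obtain ⟨W1, hW1, rfl⟩ := hw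
    have h2 := hsum (E (W1.map b)) (by
      rw [(hE _ (by rw [List.length_map, hSlen W1 hW1]; exact hDr) (hlet W1)).1, List.length_map,
        hSlen W1 hW1])
    rw [← h2, sum_image (fun x _ y _ h => hmapinj h)]
    refine sum_congr rfl fun W hW => ?_
    rw [hlamW W hW])
  have h2 := h1 (W0.map b) (mem_image_of_mem _ hmem)
  rw [hlamW W0 hmem] at h2
  exact hW0ne ((mul_eq_zero.mp h2).resolve_right (hκ0 W0))

end Pool.Agent.V7H31.DA
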